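import Mathlib
import Pool.Agent.Helper99.SZ.Stmts4

set_option autoImplicit false

namespace Pool.Helper99.SZ

open NumberField

/-- pigeonhole principle -/
theorem qix_pig {ι T : Type} [Fintype ι] [Fintype T] (c : ι → T) (q0 : ℕ)
    (h : Fintype.card T ≤ q0) :
    ∃ F : Finset ι, Fintype.card ι ≤ q0 * F.card ∧ ∀ i ∈ F, ∀ j ∈ F, c i = c j := by
  classical
  rcases isEmpty_or_nonempty ι with hι | ⟨⟨i0⟩⟩
  · exact ⟨∅, by simp, by simp⟩
  obtain ⟨y0, -, hy0⟩ := Finset.exists_max_image (Finset.univ : Finset T)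
    (fun y => (Finset.univ.filter (fun i => c i = y)).card) ⟨c i0, Finset.mem_univ _⟩
  refine ⟨Finset.univ.filter (fun i => c i = y0), ?_, ?_⟩
  · have h1 : Fintype.card ι = ∑ y : T, (Finset.univ.filter (fun i => c i = y)).card := by
      rw [← Finset.card_univ]
      exact Finset.card_eq_sum_card_fiberwise (fun i _ => Finset.mem_coe.mpr (Finset.mem_univ _))
    rw [h1]
    refine (Finset.sum_le_card_nsmul _ _ _ hy0).trans ?_
    rw [Finset.card_univ, smul_eq_mul]
    exact Nat.mul_le_mul_right _ h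
  · intro i hi j hj
    rw [(Finset.mem_filter.mp hi).2, (Finset.mem_filter.mp hj).2]

theorem qix_PIG {K : Type} [Field K] [NumberField K] {m : ℕ} (P : Fin m → Ideal (𝓞 K))
    (G1 : Subgroup Kˣ) (q0 : ℕ) (T : Type) [Fintype T] (hT : Fintype.card T ≤ q0) (c : Kˣ → T)
    (h : ∀ u w : Kˣ, (∃ a, SU P a u) → (∃ a, SU P a w) → c u = c w → u * w⁻¹ ∈ G1) :
    PIG P G1 q0 := by
  intro ι _ f hf
  obtain ⟨F, hF1, hF2⟩ := qix_pig (fun i => c (f i)) q0 hT
  exact ⟨F, hF1, fun i hi j hj => h _ _ (hf i) (hf j) (hF2 i hi j hj)⟩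

theorem qix_dv_of_mem {K : Type} [Field K] [NumberField K] {Q : Ideal (𝓞 K)} (hQ : Q.IsPrime)
    {t : ℕ} {w : 𝓞 K} (h : w ∈ Q ^ t) : Dv Q t (w : K) :=
  ⟨w, 1, fun h1 => hQ.ne_top ((Ideal.eq_top_iff_one _).mpr h1), h, by simp⟩

/-- residues -/
theorem qix_res {K : Type} [Field K] [NumberField K] {Q : Ideal (𝓞 K)} (hQ : Q.IsMaximal)
    (t : ℕ) (x : K) (h : Dv Q 0 x) : ∃ r : 𝓞 K, Dv Q t (x - r) := by
  obtain ⟨a, b, hb, -, hab⟩ := h
  obtain ⟨y, i, hi, hy⟩ := hQ.exists_inv hb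
  have h1 : IsCoprime b (i ^ t) := IsCoprime.pow_right ⟨y, 1, by rw [one_mul]; exact hy⟩
  obtain ⟨u, v, huv⟩ := h1
  refine ⟨a * u, a * (v * i ^ t), b, hb, ?_, ?_⟩
  · exact Ideal.mul_mem_left _ _ (Ideal.mul_mem_left _ _ (Ideal.pow_mem_pow hi t))
  · have h2 : (u : K) * (b : K) + (v : K) * (i : K) ^ t = 1 := by
      have := congrArg (fun z : 𝓞 K => (z : K)) huv
      simpa using this
    push_cast
    linear_combination hab - (a : K) * h2

/-- cardinality of the residue rings -/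
theorem qix_norm {K : Type} [Field K] [NumberField K] (hK : Module.finrank ℚ K = 2)
    (Q : Ideal (𝓞 K)) (q : ℕ) (hq : q.Prime) (hQ : Q.IsPrime) (hm : ((q : ℕ) : 𝓞 K) ∈ Q) :
    Ideal.absNorm Q = q ∨ (Ideal.absNorm Q = q ^ 2 ∧ Ideal.span {((q : ℕ) : 𝓞 K)} = Q) := by
  have h1 : Ideal.span {((q : ℕ) : 𝓞 K)} ≤ Q := by
    rw [Ideal.span_singleton_le_iff_mem]; exact hm
  have h2 : Ideal.absNorm (Ideal.span {((q : ℕ) : 𝓞 K)}) = q ^ 2 := by
    rw [Ideal.absNorm_span_singleton]
    have h3 : ((q : ℕ) : 𝓞 K) = algebraMap ℤ (𝓞 K) (q : ℤ) := by simp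
    rw [h3, Algebra.norm_algebraMap, RingOfIntegers.rank, hK]
    simp [Int.natAbs_pow]
  have h4 := Ideal.absNorm_dvd_absNorm_of_le h1
  rw [h2, Nat.dvd_prime_pow hq] at h4
  obtain ⟨k, hk, hk2⟩ := h4
  have h5 : Ideal.absNorm Q ≠ 1 := by
    rw [Ne, Ideal.absNorm_eq_one_iff]
    exact hQ.ne_top
  interval_cases k
  · exact absurd (by simpa using hk2) h5
  · left; simpa using hk2
  · right
    refine ⟨hk2, ?_⟩
    obtain ⟨J, hJ⟩ := Ideal.dvd_iff_le.mpr h1
    have h6 : Ideal.absNorm J = 1 := by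
      have h7 := congrArg Ideal.absNorm hJ
      rw [map_mul, h2, hk2] at h7
      have h8 : 0 < q ^ 2 := pow_pos hq.pos 2
      exact Nat.eq_of_mul_eq_mul_left h8 (by rw [mul_one]; exact h7.symm)
    rw [hJ, (Ideal.absNorm_eq_one_iff).mp h6, Ideal.mul_top]

/-- the number of classes of units modulo the prime field -/
theorem qix_lines (F : Type) [Field F] [Finite F] (q : ℕ) (hq : q.Prime)
    (hF : Nat.card F = q ^ 2) (h0 : ((q : ℕ) : F) = 0) :
    ∃ H : Subgroup Fˣ, H.index ≤ 2 * q ∧ ∀ x ∈ H, ∃ k : ℕ, (x : F) = (k : F) := by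
  have : Fact q.Prime := ⟨hq⟩
  have : CharP F q := (CharP.charP_iff_prime_eq_zero hq).2 h0
  set φ : ZMod q →+* F := ZMod.castHom (dvd_refl q) F with hφ
  refine ⟨(Units.map (φ : ZMod q →* F)).range, ?_, ?_⟩
  · have h1 := (Units.map (φ : ZMod q →* F)).range.index_mul_card
    have h2 : Nat.card (Units.map (φ : ZMod q →* F)).range = q - 1 := by
      have h3 : Function.Injective (Units.map (φ : ZMod q →* F)) :=
        Units.map_injective φ.injective
      rw [← Nat.card_congr (MonoidHom.ofInjective h3).toEquiv, Nat.card_eq_fintype_card,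
        ZMod.card_units]
    rw [h2, Nat.card_units, hF] at h1
    have h4 : q ^ 2 - 1 = (q + 1) * (q - 1) := by
      obtain ⟨r, rfl⟩ : ∃ r, q = r + 1 := ⟨q - 1, by have := hq.pos; omega⟩
      have : (r + 1) ^ 2 = (r + 1 + 1) * (r + 1 - 1) + 1 := by
        simp only [Nat.add_sub_cancel]; ring
      omega
    rw [h4] at h1
    have h5 : 0 < q - 1 := by have := hq.two_le; omega
    have h6 := Nat.eq_of_mul_eq_mul_right h5 h1
    rw [h6]
    have := hq.two_le
    omega
  · rintro x ⟨y, rfl⟩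
    refine ⟨(y : ZMod q).val, ?_⟩
    rw [Units.coe_map]
    have h1 : (y : ZMod q) = (((y : ZMod q).val : ℕ) : ZMod q) := (ZMod.natCast_zmod_val _).symm
    change φ (y : ZMod q) = _
    conv_lhs => rw [h1]
    rw [map_natCast]

theorem st_QIX (hDVB : ST_DVB) (hSUF : ST_SUF) : ST_QIX := by
  intro K _ _ τ β a b m p P 𝔞 hD q v Q hq hQ jj hjj
  classical
  obtain ⟨d0, dmono, dadd, dneg, dmul, dun, dpow, dprod, dint⟩ := hDVB K Q hQ.pr hQ.bot
  obtain ⟨smul, sinv, -, sun, -, -⟩ := hSUF K m P hD.inj hD.pr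
  have hmax : Q.IsMaximal := hQ.pr.isMaximal hQ.bot
  have hdeg := hD.qf.deg
  have hτ0 : ∀ u : Kˣ, τ (u : K) ≠ 0 := fun u => by
    rw [Ne, map_eq_zero]; exact u.ne_zero
  -- the quotient
  set ψ : Kˣ → K := fun u => (u : K) / τ (u : K) with hψ
  have hψmul : ∀ u w : Kˣ, ψ (u * w) = ψ u * ψ w := by
    intro u w
    simp only [hψ, Units.val_mul, map_mul]
    rw [mul_div_mul_comm]
  have hψinv : ∀ u : Kˣ, ψ u⁻¹ = (ψ u)⁻¹ := by
    intro u
    simp only [hψ, Units.val_inv_eq_inv_val, map_inv₀]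
    rw [inv_div_inv, inv_div]
  have hSmul : ∀ u w : Kˣ, (∃ x, SU P x u) → (∃ x, SU P x w) → ∃ x, SU P x (u * w) := by
    rintro u w ⟨x, hx⟩ ⟨y, hy⟩
    exact ⟨_, smul x y u w hx hy⟩
  have hSinv : ∀ u : Kˣ, (∃ x, SU P x u) → ∃ x, SU P x u⁻¹ := by
    rintro u ⟨x, hx⟩
    exact ⟨_, sinv x u hx⟩
  have hψ0 : ∀ u : Kˣ, (∃ x, SU P x u) → Dv Q 0 (ψ u) ∧ Dv Q 0 (ψ u)⁻¹ := by
    rintro u ⟨x, hx⟩
    obtain ⟨⟨h1, h2⟩, h3, h4⟩ := hQ.un u x hx
    constructor
    · have := dmul 0 0 _ _ h1 h4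
      rw [← div_eq_mul_inv] at this
      exact this
    · have := dmul 0 0 _ _ h3 h2
      simp only [hψ]
      rw [inv_div, div_eq_mul_inv]
      exact this
  -- the subgroup
  set G1 : Subgroup Kˣ := {
    carrier := {u | (∃ x, SU P x u) ∧ Dv Q jj (ψ u - 1)}
    mul_mem' := by
      rintro u w ⟨hu, hu'⟩ ⟨hw, hw'⟩
      refine ⟨hSmul u w hu hw, ?_⟩
      rw [hψmul]
      exact dprod jj _ _ hjj hu' hw'
    one_mem' := by
      refine ⟨⟨0, (sun 1).mpr ⟨1, by simp⟩⟩, ?_⟩
      have h1 : ψ 1 - 1 = ((0 : 𝓞 K) : K) := by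
        simp [hψ]
      rw [h1]
      exact qix_dv_of_mem hQ.pr (Ideal.zero_mem _)
    inv_mem' := by
      rintro u ⟨hu, hu'⟩
      refine ⟨hSinv u hu, ?_⟩
      rw [hψinv]
      have := dpow jj (ψ u) (-1) hjj hu'
      rwa [zpow_neg_one] at this } with hG1
  have hG1mem : ∀ u : Kˣ, u ∈ G1 ↔ (∃ x, SU P x u) ∧ Dv Q jj (ψ u - 1) := fun u => Iff.rfl
  -- a criterion
  have hcrit : ∀ u w : Kˣ, (∃ x, SU P x u) → (∃ x, SU P x w) → Dv Q jj (ψ u - ψ w) →
      u * w⁻¹ ∈ G1 := by
    intro u w hu hw h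
    rw [hG1mem]
    refine ⟨hSmul _ _ hu (hSinv w hw), ?_⟩
    rw [hψmul, hψinv]
    have h1 : ψ w ≠ 0 := div_ne_zero w.ne_zero (hτ0 w)
    have h2 : ψ u * (ψ w)⁻¹ - 1 = (ψ u - ψ w) * (ψ w)⁻¹ := by
      field_simp
    rw [h2]
    have := dmul jj 0 _ _ h (hψ0 w hw).2
    simpa using this
  -- a representative of the residue class
  have hres : ∀ u : Kˣ, ∃ r : 𝓞 K, (∃ x, SU P x u) → Dv Q jj (ψ u - r) := by
    intro u
    by_cases hu : ∃ x, SU P x u
    · obtain ⟨r, hr⟩ := qix_res hmax jj (ψ u) (hψ0 u hu).1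
      exact ⟨r, fun _ => hr⟩
    · exact ⟨0, fun h => absurd h hu⟩
  choose r hr using hres
  -- the residue classes
  have hcard : ∀ t : ℕ, Nat.card (𝓞 K ⧸ Q ^ t) = Ideal.absNorm Q ^ t := by
    intro t
    rw [← map_pow, Ideal.absNorm_apply, Submodule.cardQuot_apply]
  have hnorm := qix_norm hdeg Q q hq hQ.pr hQ.pm
  have hNpos : 0 < Ideal.absNorm Q := by
    rcases hnorm with h | ⟨h, -⟩
    · rw [h]; exact hq.pos
    · rw [h]; exact pow_pos hq.pos 2
  have hfinq : ∀ t : ℕ, Finite (𝓞 K ⧸ Q ^ t) := by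
    intro t
    apply Nat.finite_of_card_ne_zero
    rw [hcard t]
    exact (pow_pos hNpos t).ne'
  have hgen : PIG P G1 (Ideal.absNorm Q ^ jj) := by
    have := hfinq jj
    have : Fintype (𝓞 K ⧸ Q ^ jj) := Fintype.ofFinite _
    refine qix_PIG P G1 _ (𝓞 K ⧸ Q ^ jj) ?_ (fun u => Ideal.Quotient.mk _ (r u)) ?_
    · rw [← Nat.card_eq_fintype_card, hcard]
    · intro u w hu hw h
      apply hcrit u w hu hw
      have h1 := hr u hu
      have h2 := hr w hw
      have h3 : r u - r w ∈ Q ^ jj := (Ideal.Quotient.eq).mp h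
      have h4 := qix_dv_of_mem hQ.pr h3
      have h5 := dadd jj _ _ (dadd jj _ _ h1 (dneg jj _ h2)) h4
      have h6 : ψ u - (r u : K) + -(ψ w - (r w : K)) + ((r u - r w : 𝓞 K) : K) = ψ u - ψ w := by
        push_cast; ring
      rwa [h6] at h5
  have hq1 := hq.one_lt
  have hnle : Ideal.absNorm Q ^ jj ≤ q ^ (27 * jj) := by
    have h1 : Ideal.absNorm Q ≤ q ^ 27 := by
      rcases hnorm with h | ⟨h, -⟩
      · rw [h]; exact Nat.le_self_pow (by norm_num) q
      · rw [h]; exact Nat.pow_le_pow_right hq.pos (by norm_num)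
    rw [pow_mul]
    exact Nat.pow_le_pow_left h1 jj
  have hQ0 : Q ^ 1 = Q := pow_one Q
  by_cases hj1 : jj = 1
  swap
  · exact ⟨G1, Ideal.absNorm Q ^ jj, fun u hu => hu.1, fun u hu => hu.2,
      Nat.pos_of_ne_zero (pow_pos hNpos jj).ne', hnle, hgen, fun h => absurd h hj1⟩
  subst hj1
  by_cases hv : Odd v
  · -- ramified case
    refine ⟨G1, 1, fun u hu => hu.1, fun u hu => hu.2, le_rfl, Nat.one_le_pow _ _ hq.pos, ?_, ?_⟩
    · refine qix_PIG P G1 1 Unit (by simp) (fun _ => ()) ?_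
      intro u w hu hw _
      rw [hG1mem]
      refine ⟨hSmul _ _ hu (hSinv w hw), ?_⟩
      -- all units
      have hall : ∀ z : Kˣ, (∃ x, SU P x z) → Dv Q 1 (ψ z - 1) := by
        rintro z ⟨x, hx⟩
        obtain ⟨⟨⟨c, d, hd, -, hcd⟩, -⟩, -, h4⟩ := hQ.un z x hx
        have h5 := hQ.ram hv c
        have h6 := hQ.ram hv d
        set d' : 𝓞 K := RingOfIntegers.mapRingHom τ d with hd'
        have hd'c : (d' : K) = τ (d : K) := RingOfIntegers.mapRingHom_apply τ d
        have hdd : d' ∉ Q := by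
          intro hcon
          have h7 : Dv Q 1 ((d' : K)) := qix_dv_of_mem hQ.pr (by rw [pow_one]; exact hcon)
          have h8 := dadd 1 _ _ h6 h7
          rw [hd'c] at h8
          have h9 : (d : K) - τ (d : K) + τ (d : K) = (d : K) := by ring
          rw [h9] at h8
          have := dint 1 d h8
          rw [pow_one] at this
          exact hd this
        -- z - τ z
        have h10 : Dv Q 1 ((z : K) - τ (z : K)) := by
          have h11 : Dv Q 1 ((d : K) * ((c : K) - τ (c : K)) + -((c : K) * ((d : K) - τ (d : K)))) := by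
            refine dadd 1 _ _ ?_ (dneg 1 _ ?_)
            · have := dmul 0 1 _ _ (d0 d) h5
              simpa using this
            · have := dmul 0 1 _ _ (d0 c) h6
              simpa using this
          obtain ⟨e, f, hf, he, hef⟩ := h11
          refine ⟨e, f * (d * d'), ?_, he, ?_⟩
          · intro hcon
            rcases hQ.pr.mem_or_mem hcon with h | h
            · exact hf h
            · rcases hQ.pr.mem_or_mem h with h | h
              · exact hd h
              · exact hdd h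
          · have h12 : τ (z : K) * τ (d : K) = τ (c : K) := by rw [← map_mul, hcd]
            have h15 : ((f * (d * d') : 𝓞 K) : K) = (f : K) * ((d : K) * τ (d : K)) := by
              rw [← hd'c]; push_cast; rfl
            rw [h15, ← hef]
            linear_combination ((f : K) * τ (d : K)) * hcd - ((f : K) * (d : K)) * h12
        have h13 := dmul 1 0 _ _ h10 h4
        have h14 : ((z : K) - τ (z : K)) * (τ (z : K))⁻¹ = ψ z - 1 := by
          simp only [hψ]
          have := hτ0 z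
          field_simp
        rw [h14] at h13
        simpa using h13
      exact hall _ (hSmul _ _ hu (hSinv w hw))
    · intro _
      rw [if_pos hv]
      norm_num
  · -- unramified case
    have hle : 2 * q ≤ q ^ (27 * 1) := by
      calc 2 * q ≤ q * q := Nat.mul_le_mul_right q hq.two_le
        _ = q ^ 2 := (pow_two q).symm
        _ ≤ q ^ (27 * 1) := Nat.pow_le_pow_right hq.pos (by norm_num)
    refine ⟨G1, 2 * q, fun u hu => hu.1, fun u hu => hu.2, by omega, hle, ?_, ?_⟩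
    swap
    · intro _
      rw [if_neg hv]
      push_cast
      exact le_rfl
    rcases hnorm with hN | ⟨hN, hspan⟩
    · rw [hN, pow_one] at hgen
      intro ι _ f hf
      obtain ⟨F, hF1, hF2⟩ := hgen ι f hf
      exact ⟨F, hF1.trans (Nat.mul_le_mul_right _ (by omega)), hF2⟩
    · -- the residue field has `q ^ 2` elements
      letI : Field (𝓞 K ⧸ Q) := Ideal.Quotient.field Q
      have hcQ : Nat.card (𝓞 K ⧸ Q) = q ^ 2 := by
        have := hcard 1
        rwa [hQ0, pow_one, hN] at this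
      have hfin : Finite (𝓞 K ⧸ Q) := by
        apply Nat.finite_of_card_ne_zero
        rw [hcQ]
        exact (pow_pos hq.pos 2).ne'
      obtain ⟨H, hH1, hH2⟩ := qix_lines (𝓞 K ⧸ Q) q hq hcQ (by
        have : Ideal.Quotient.mk Q ((q : ℕ) : 𝓞 K) = 0 := Ideal.Quotient.eq_zero_iff_mem.mpr hQ.pm
        simpa using this)
      -- representatives of the units
      have hres2 : ∀ u : Kˣ, ∃ (s : 𝓞 K) (y : (𝓞 K ⧸ Q)ˣ), (∃ x, SU P x u) →
          Dv Q 1 ((u : K) - s) ∧ (y : 𝓞 K ⧸ Q) = Ideal.Quotient.mk Q s := by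
        intro u
        by_cases hu : ∃ x, SU P x u
        · obtain ⟨x, hx⟩ := hu
          obtain ⟨⟨h1, h2⟩, -⟩ := hQ.un u x hx
          obtain ⟨s, hs⟩ := qix_res hmax 1 (u : K) h1
          have hs0 : Ideal.Quotient.mk Q s ≠ 0 := by
            intro h3
            have h4 : s ∈ Q := Ideal.Quotient.eq_zero_iff_mem.mp h3
            have h5 : Dv Q 1 (s : K) := qix_dv_of_mem hQ.pr (by rw [pow_one]; exact h4)
            have h6 := dadd 1 _ _ hs h5
            rw [sub_add_cancel] at h6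
            have h7 := dmul 1 0 _ _ h6 h2
            rw [mul_inv_cancel₀ u.ne_zero] at h7
            have h8 : Dv Q 1 (((1 : 𝓞 K)) : K) := by simpa using h7
            have h9 := dint 1 1 h8
            rw [pow_one] at h9
            exact hQ.pr.ne_top ((Ideal.eq_top_iff_one _).mpr h9)
          exact ⟨s, Units.mk0 _ hs0, fun _ => ⟨hs, rfl⟩⟩
        · exact ⟨0, 1, fun h => absurd h hu⟩
      choose s y hsy using hres2
      -- conjugation preserves `Q`
      have hτQ : ∀ z : K, Dv Q 1 z → Dv Q 1 (τ z) := by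
        rintro z ⟨c, d, hd, hc, hcd⟩
        rw [pow_one, ← hspan, Ideal.mem_span_singleton] at hc
        obtain ⟨c', rfl⟩ := hc
        refine ⟨RingOfIntegers.mapRingHom τ (((q : ℕ) : 𝓞 K) * c'), RingOfIntegers.mapRingHom τ d,
          ?_, ?_, ?_⟩
        · intro hcon
          rw [← hspan, Ideal.mem_span_singleton] at hcon
          obtain ⟨e, he⟩ := hcon
          apply hd
          rw [← hspan, Ideal.mem_span_singleton]
          refine ⟨RingOfIntegers.mapRingHom τ e, ?_⟩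
          have h1 : (RingOfIntegers.mapRingHom τ (RingOfIntegers.mapRingHom τ d)) = d := by
            apply RingOfIntegers.ext
            rw [RingOfIntegers.mapRingHom_apply, RingOfIntegers.mapRingHom_apply]
            exact hD.qf.inv _
          rw [← h1, he, map_mul, map_natCast]
        · rw [pow_one, map_mul, map_natCast]
          exact Ideal.mul_mem_right _ _ hQ.pm
        · rw [RingOfIntegers.mapRingHom_apply, RingOfIntegers.mapRingHom_apply, ← map_mul, hcd]
      have : Fintype ((𝓞 K ⧸ Q)ˣ ⧸ H) := Fintype.ofFinite _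
      refine qix_PIG P G1 (2 * q) ((𝓞 K ⧸ Q)ˣ ⧸ H) ?_ (fun u => QuotientGroup.mk (y u)) ?_
      · rw [← Nat.card_eq_fintype_card]
        exact hH1
      · intro u w hu hw h
        have h1 : (y u)⁻¹ * y w ∈ H := QuotientGroup.eq.mp h
        obtain ⟨k, hk⟩ := hH2 _ h1
        obtain ⟨h2, h3⟩ := hsy u hu
        obtain ⟨h4, h5⟩ := hsy w hw
        have h6 : (y w : 𝓞 K ⧸ Q) = (y u : 𝓞 K ⧸ Q) * (k : 𝓞 K ⧸ Q) := by
          rw [← hk]
          push_cast
          rw [mul_inv_cancel_left₀ (y u).ne_zero]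
        rw [h3, h5] at h6
        have h7 : s w - s u * (k : 𝓞 K) ∈ Q := by
          rw [← Ideal.Quotient.eq_zero_iff_mem, map_sub, map_mul, map_natCast, h6, sub_self]
        have h8 : Dv Q 1 ((s w - s u * (k : 𝓞 K) : 𝓞 K) : K) :=
          qix_dv_of_mem hQ.pr (by rw [pow_one]; exact h7)
        -- `w - k u`
        have h9 : Dv Q 1 ((w : K) - (k : K) * (u : K)) := by
          have h10 := dmul 1 0 _ _ h2 (d0 (k : 𝓞 K))
          have h11 := dadd 1 _ _ (dadd 1 _ _ h4 (dneg 1 _ h10)) h8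
          have h12 : (w : K) - (s w : K) + -(((u : K) - (s u : K)) * (((k : 𝓞 K)) : K)) +
              ((s w - s u * (k : 𝓞 K) : 𝓞 K) : K) = (w : K) - (k : K) * (u : K) := by
            push_cast; ring
          rwa [h12] at h11
        have h13 := hτQ _ h9
        obtain ⟨xu, hxu⟩ := hu
        obtain ⟨xw, hxw⟩ := hw
        obtain ⟨⟨u1, u2⟩, u3, u4⟩ := hQ.un u xu hxu
        obtain ⟨⟨w1, w2⟩, w3, w4⟩ := hQ.un w xw hxw
        apply hcrit u w ⟨xu, hxu⟩ ⟨xw, hxw⟩
        have h14 : Dv Q 1 ((u : K) * τ ((w : K) - (k : K) * (u : K)) +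
            -(τ (u : K) * ((w : K) - (k : K) * (u : K)))) := by
          refine dadd 1 _ _ ?_ (dneg 1 _ ?_)
          · have := dmul 0 1 _ _ u1 h13
            simpa using this
          · have := dmul 0 1 _ _ u3 h9
            simpa using this
        have h15 := dmul 1 0 _ _ h14 (dmul 0 0 _ _ u4 w4)
        have h16 : ((u : K) * τ ((w : K) - (k : K) * (u : K)) +
            -(τ (u : K) * ((w : K) - (k : K) * (u : K)))) * ((τ (u : K))⁻¹ * (τ (w : K))⁻¹) =
            ψ u - ψ w := by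
          simp only [hψ, map_sub, map_mul, map_natCast]
          have e1 := hτ0 u
          have e2 := hτ0 w
          field_simp
          ring
        rw [h16] at h15
        simpa using h15

end Pool.Helper99.SZ
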