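import Pool.Agent.Helper99.SZ.Stmts3

set_option autoImplicit false

/-! Module RCU: the energy recursion for an arbitrary place. -/

namespace Pool.Helper99.SZ

open NumberField

/-- the vector of rational coordinates -/
def rcu_cq (n : ℕ) : ℤ × (Fin n → ℤ) →+ (Fin n → ℚ) where
  toFun a := fun i => ((a.2 i : ℤ) : ℚ)
  map_zero' := by
    funext i
    simp
  map_add' a b := by
    funext i
    simp

theorem rcu_cq_apply {n : ℕ} (a : ℤ × (Fin n → ℤ)) :
    rcu_cq n a = fun i => ((a.2 i : ℤ) : ℚ) := rfl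

theorem rcu_sum {G : Type} [AddCommGroup G] {nrm : G → ℝ} (h0 : nrm 0 = 0)
    (hadd : ∀ a b, nrm (a + b) ≤ nrm a + nrm b) {R : ℝ}
    (l : List G) (hl : ∀ a ∈ l, nrm a ≤ R) : nrm l.sum ≤ l.length * R := by
  induction l with
  | nil =>
    simp only [List.sum_nil, List.length_nil, Nat.cast_zero, zero_mul]
    exact h0.le
  | cons a l ih =>
    have h1 := ih fun b hb => hl b (List.mem_cons_of_mem a hb)
    have h3 := hl a List.mem_cons_self
    rw [List.sum_cons, List.length_cons]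
    refine (hadd _ _).trans ?_
    push_cast
    linarith

theorem rcu_fact {n d : ℕ} (hd : d ≤ n) : (d + 1).factorial ≤ (n + 1) ^ d := by
  induction d with
  | zero => simp
  | succ d ih =>
    rw [Nat.factorial_succ, pow_succ, mul_comm]
    exact Nat.mul_le_mul (ih (by omega)) (by omega)

/-- the constant of one step -/
theorem rcu_const {n K Lc d : ℕ} (hd : d ≤ n) (hd1 : 1 ≤ d) :
    (((d + 1).factorial * (K ^ d * Lc) : ℕ) : ℝ) ≤ (4 * ((n : ℝ) + 1) * K * Lc) ^ d := by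
  have h1 : (d + 1).factorial * (K ^ d * Lc) ≤ (4 * (n + 1) * K * Lc) ^ d := by
    calc (d + 1).factorial * (K ^ d * Lc) ≤ (n + 1) ^ d * (K ^ d * Lc ^ d) := by
          refine Nat.mul_le_mul (rcu_fact hd) (Nat.mul_le_mul_left _ ?_)
          exact Nat.le_self_pow (by omega) Lc
      _ ≤ 4 ^ d * ((n + 1) ^ d * (K ^ d * Lc ^ d)) :=
          Nat.le_mul_of_pos_left _ (by positivity)
      _ = (4 * (n + 1) * K * Lc) ^ d := by
          rw [mul_pow, mul_pow, mul_pow]
          ring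
  exact_mod_cast h1

theorem rcu_num {E M F G x : ℝ} {a b : ℕ} (hab : a ≤ b) (hG : 1 ≤ G) (hF : 0 ≤ F)
    (h1 : 2 * G ^ b * x ≤ E) (h2 : E ≤ M * F) (h3 : M ≤ G ^ (b - a)) :
    2 * G ^ a * x ≤ F := by
  have hG0 : 0 < G ^ (b - a) := by positivity
  have e : G ^ b = G ^ (b - a) * G ^ a := by
    rw [← pow_add]
    congr 1
    omega
  have h4 : G ^ (b - a) * (2 * G ^ a * x) ≤ G ^ (b - a) * F := by
    calc G ^ (b - a) * (2 * G ^ a * x) = 2 * G ^ b * x := by rw [e]; ring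
      _ ≤ M * F := h1.trans h2
      _ ≤ G ^ (b - a) * F := mul_le_mul_of_nonneg_right h3 hF
  exact le_of_mul_le_mul_left h4 hG0

theorem rcu_num2 {n K Lc v : ℕ} {S E F : ℝ} (hv : 1 ≤ v) (hS : 1 ≤ S) (hK : 1 ≤ K) (hL : 1 ≤ Lc)
    (h1 : 2 * (4 * ((n : ℝ) + 1) * K * Lc) ^ v * S ≤ E) (h2 : E ≤ Lc * F)
    (h3 : F ≤ S * (K : ℝ) ^ v) : False := by
  have hL' : (1 : ℝ) ≤ Lc := by exact_mod_cast hL
  have hK' : (1 : ℝ) ≤ K := by exact_mod_cast hK
  have hn : (0 : ℝ) ≤ n := Nat.cast_nonneg n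
  have h4 : (K : ℝ) ^ v * Lc ≤ (4 * ((n : ℝ) + 1) * K * Lc) ^ v := by
    have e1 : (K : ℝ) ^ v * Lc ≤ ((K : ℝ) * Lc) ^ v := by
      rw [mul_pow]
      exact mul_le_mul_of_nonneg_left (le_self_pow₀ hL' (by omega)) (by positivity)
    refine e1.trans (pow_le_pow_left₀ (by positivity) ?_ v)
    have : 0 ≤ (K : ℝ) * Lc := by positivity
    nlinarith
  have h5 : 0 < (K : ℝ) ^ v * Lc := by positivity
  have h6 : E ≤ Lc * (S * (K : ℝ) ^ v) := h2.trans (mul_le_mul_of_nonneg_left h3 (by linarith))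
  have h7 : 2 * ((K : ℝ) ^ v * Lc) * S ≤ 2 * (4 * ((n : ℝ) + 1) * K * Lc) ^ v * S := by
    have : 0 ≤ S := by linarith
    nlinarith
  have h8 : 2 * ((K : ℝ) ^ v * Lc) * S ≤ Lc * (S * (K : ℝ) ^ v) := h7.trans (h1.trans h6)
  have h9 : 0 < ((K : ℝ) ^ v * Lc) * S := by positivity
  nlinarith

/-- the reduction modulo `K` in a group embedded in `ℤ ^ v` -/
theorem rcu_mod {A : Type} [AddCommGroup A] {v K : ℕ} (hK : 1 ≤ K) (H : AddSubgroup A)
    (ψ : A →+ (Fin v → ℤ)) (hψ : ∀ a ∈ H, ψ a = 0 → a = 0) (C : Finset A)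
    (hC : ∀ a ∈ C, a ∈ H) (hsep : ∀ a ∈ C, ∀ b ∈ C, ∀ h ∈ H, a - b = (K : ℤ) • h → h = 0) :
    C.card ≤ K ^ v := by
  classical
  let f : H →ₗ[ℤ] (Fin v → ℤ) := (ψ.comp H.subtype).toIntLinearMap
  have hf : Function.Injective f := by
    rw [← LinearMap.ker_eq_bot, LinearMap.ker_eq_bot']
    intro a ha
    exact Subtype.ext (hψ a a.2 ha)
  obtain ⟨r, ⟨b⟩⟩ := (LinearMap.range f).nonempty_basis_of_pid (Pi.basisFun ℤ (Fin v))
  have hr : r ≤ v := by
    have h1 := Submodule.finrank_le (LinearMap.range f)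
    rw [Module.finrank_eq_card_basis b, Fintype.card_fin, Module.finrank_fin_fun] at h1
    exact h1
  let e : H ≃ₗ[ℤ] LinearMap.range f := LinearEquiv.ofInjective f hf
  let b' : Module.Basis (Fin r) ℤ H := b.map e.symm
  have : NeZero K := ⟨by omega⟩
  let g : A → (Fin r → ZMod K) := fun a => if ha : a ∈ H then
    fun i => ((b'.repr ⟨a, ha⟩ i : ℤ) : ZMod K) else 0
  have hcard : C.card ≤ Fintype.card (Fin r → ZMod K) := by
    rw [← Finset.card_univ]
    refine Finset.card_le_card_of_injOn g (fun a _ => Finset.mem_univ _) ?_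
    intro x hx y hy hxy
    have hx' := hC x hx
    have hy' := hC y hy
    simp only [g, dif_pos hx', dif_pos hy'] at hxy
    have h1 : ∀ i, ∃ d : ℤ, b'.repr ⟨x, hx'⟩ i - b'.repr ⟨y, hy'⟩ i = K * d := by
      intro i
      have h2 := congrFun hxy i
      rw [← sub_eq_zero, ← Int.cast_sub, ZMod.intCast_zmod_eq_zero_iff_dvd] at h2
      exact h2
    choose d hd using h1
    have h3 : (⟨x, hx'⟩ - ⟨y, hy'⟩ : H) = (K : ℤ) • ∑ i, d i • b' i := by
      apply b'.repr.injective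
      ext i
      rw [map_sub, map_smul, map_sum]
      simp only [Finsupp.sub_apply, Finsupp.smul_apply, map_smul, Module.Basis.repr_self,
        Finsupp.coe_finsetSum, Finset.sum_apply, smul_eq_mul, Finsupp.single_apply, mul_ite,
        mul_one, mul_zero]
      rw [Finset.sum_ite_eq' Finset.univ i, if_pos (Finset.mem_univ _)]
      exact hd i
    have h4 := hsep x hx y hy ((∑ i, d i • b' i : H) : A) (∑ i, d i • b' i : H).2 (by
      have := congrArg (Subtype.val) h3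
      simpa using this)
    have h5 : (∑ i, d i • b' i : H) = 0 := Subtype.ext h4
    rw [h5, smul_zero, sub_eq_zero] at h3
    exact congrArg Subtype.val h3
  refine hcard.trans ?_
  rw [Fintype.card_fun, ZMod.card, Fintype.card_fin]
  exact Nat.pow_le_pow_right hK hr

theorem st_RCU (hJEX : ST_JEX) (hZV2 : ST_ZV2) (hENG : ST_ENG) : ST_RCU := by
  classical
  intro L _ _ n g0 g nrm G Z U ρ K Lc hG hLD hρ hρU hUn hUG hLc1 hVAN v
  have hn : (0 : ℝ) ≤ n := Nat.cast_nonneg n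
  have hn1 : (1 : ℝ) ≤ (n : ℝ) + 1 := by linarith
  have hρU2 : 4 * ρ ≤ U := by
    refine le_trans ?_ hρU
    nlinarith
  have hU : 0 ≤ U := by linarith
  have hK1 : 1 ≤ K := by
    rcases Nat.eq_zero_or_pos K with h | h
    · rw [h, Nat.cast_zero, zero_mul] at hUG
      linarith
    · exact h
  have hn0 : nrm 0 = 0 := by
    have := hLD.smul 0 0
    rw [smul_zero] at this
    rw [this]
    simp
  have hneg : ∀ a, nrm (-a) = nrm a := by
    intro a
    have := hLD.smul (-1) a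
    rw [neg_one_smul] at this
    rw [this]
    simp
  have hnn : ∀ a, 0 ≤ nrm a := fun a => (abs_nonneg _).trans (hLD.co0 a)
  have hdiff : ∀ a b, nrm a ≤ ρ → nrm b ≤ ρ → nrm (a - b) ≤ 2 * ρ := by
    intro a b ha hb
    have e2 := hLD.add a (-b)
    rw [hneg, ← sub_eq_add_neg] at e2
    linarith
  have hdiff2 : ∀ a b, nrm a ≤ 2 * ρ → nrm b ≤ 2 * ρ → nrm (a - b) ≤ 4 * ρ := by
    intro a b ha hb
    have e2 := hLD.add a (-b)
    rw [hneg, ← sub_eq_add_neg] at e2
    linarith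
  have hfinρ : {a : ℤ × (Fin n → ℤ) | nrm a ≤ ρ}.Finite := hLD.fin ρ
  obtain ⟨S, hS⟩ : ∃ S : Finset (ℤ × (Fin n → ℤ)), S = hfinρ.toFinset := ⟨_, rfl⟩
  have hSm : ∀ a, a ∈ S ↔ nrm a ≤ ρ := by
    intro a
    rw [hS, Set.Finite.mem_toFinset]
    rfl
  have h0S : (0 : ℤ × (Fin n → ℤ)) ∈ S := by
    rw [hSm, hn0]
    exact hρ
  have hS1 : 1 ≤ S.card := Finset.card_pos.2 ⟨0, h0S⟩
  have hS1' : (1 : ℝ) ≤ S.card := by exact_mod_cast hS1
  have hSc : ({a : ℤ × (Fin n → ℤ) | nrm a ≤ ρ}.ncard : ℝ) = S.card := by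
    rw [Set.ncard_eq_toFinset_card _ hfinρ, ← hS]
  rw [hSc]
  have hprodfin : ∀ Q : (ℤ × (Fin n → ℤ)) × (ℤ × (Fin n → ℤ)) → Prop,
      {z : (ℤ × (Fin n → ℤ)) × (ℤ × (Fin n → ℤ)) | z.1 ∈ S ∧ z.2 ∈ S ∧ Q z}.Finite := by
    intro Q
    refine (S ×ˢ S).finite_toSet.subset ?_
    rintro z ⟨h1, h2, -⟩
    rw [Finset.mem_coe, Finset.mem_product]
    exact ⟨h1, h2⟩
  induction v using Nat.strong_induction_on with
  | _ v ih =>
    intro V hV
    by_contra hcount
    rw [not_lt] at hcount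
    let GV : AddSubgroup (ℤ × (Fin n → ℤ)) := V.toAddSubgroup.comap (rcu_cq n)
    have hGV : ∀ a, a ∈ GV ↔ rcu_cq n a ∈ V := fun a => Iff.rfl
    have hsetV : {z : (ℤ × (Fin n → ℤ)) × (ℤ × (Fin n → ℤ)) | nrm z.1 ≤ ρ ∧ nrm z.2 ≤ ρ ∧
        (fun i => (((z.1 - z.2).2 i : ℤ) : ℚ)) ∈ V} =
        {z | z.1 ∈ S ∧ z.2 ∈ S ∧ z.1 - z.2 ∈ GV} := by
      ext z
      rw [Set.mem_ofPred_eq, Set.mem_ofPred_eq, hSm, hSm]
      rfl
    rw [hsetV] at hcount
    rcases Nat.eq_zero_or_pos v with hv0 | hv1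
    · -- dimension zero
      subst hv0
      rw [pow_zero, mul_one] at hcount
      have hVbot : V = ⊥ := Submodule.finrank_eq_zero.1 hV
      obtain ⟨x, y, hx, hy, hxy, hne⟩ : ∃ x y : ℤ × (Fin n → ℤ), x ∈ S ∧ y ∈ S ∧
          x - y ∈ GV ∧ x ≠ y := by
        by_contra hcon
        push Not at hcon
        have h1 : {z : (ℤ × (Fin n → ℤ)) × (ℤ × (Fin n → ℤ)) |
            z.1 ∈ S ∧ z.2 ∈ S ∧ z.1 - z.2 ∈ GV} ⊆ ((S.image fun a => (a, a) :
              Finset ((ℤ × (Fin n → ℤ)) × (ℤ × (Fin n → ℤ)))) : Set _) := by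
          rintro ⟨x, y⟩ ⟨h1, h2, h3⟩
          have h4 := hcon x y h1 h2 h3
          rw [Finset.mem_coe, Finset.mem_image]
          exact ⟨x, h1, by rw [← h4]⟩
        have h2 := Set.ncard_le_ncard h1 (Finset.finite_toSet _)
        rw [Set.ncard_coe_finset] at h2
        have h3 : (S.image fun a => (a, a) :
            Finset ((ℤ × (Fin n → ℤ)) × (ℤ × (Fin n → ℤ)))).card ≤ S.card := Finset.card_image_le
        have h4 : (({z : (ℤ × (Fin n → ℤ)) × (ℤ × (Fin n → ℤ)) |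
            z.1 ∈ S ∧ z.2 ∈ S ∧ z.1 - z.2 ∈ GV}.ncard : ℕ) : ℝ) ≤ S.card := by
          exact_mod_cast h2.trans h3
        linarith
      have h2 : (x - y).2 = 0 := by
        rw [hGV, hVbot, Submodule.mem_bot, rcu_cq_apply] at hxy
        funext i
        have h5 : (((x - y).2 i : ℤ) : ℚ) = 0 := congrFun hxy i
        exact Int.cast_eq_zero.1 h5
      have hxy1 : (x - y).1 ≠ 0 := by
        intro h4
        apply hne
        rw [← sub_eq_zero]
        exact Prod.ext h4 h2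
      have hsub : x - y = ((x - y).1) • ((1 : ℤ), (0 : Fin n → ℤ)) := by
        apply Prod.ext
        · simp
        · rw [h2]
          simp
      have h4 := hdiff x y ((hSm x).1 hx) ((hSm y).1 hy)
      rw [hsub, hLD.smul] at h4
      have h5 : (1 : ℝ) ≤ |(((x - y).1 : ℤ) : ℝ)| := by
        have h6 : (1 : ℤ) ≤ |(x - y).1| := Int.one_le_abs hxy1
        exact_mod_cast h6
      have h7 := hnn ((1 : ℤ), (0 : Fin n → ℤ))
      nlinarith
    -- positive dimension
    have hvn : v ≤ n := by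
      have := Submodule.finrank_le V
      rw [hV, Module.finrank_fin_fun] at this
      exact this
    obtain ⟨J, hJ1, hJ2⟩ := hJEX n v V hV
    obtain ⟨x, hx0, hx⟩ := hVAN v V hv1 hV J hJ2
    -- the embedding
    obtain ⟨τ⟩ : Nonempty (L →+* ℂ) := inferInstance
    have hg0 : τ g0 ≠ 0 := (map_ne_zero τ).2 hLD.ne0
    have hg : ∀ i, τ (g i) ≠ 0 := fun i => (map_ne_zero τ).2 (hLD.ne i)
    let ζ : ℤ × (Fin n → ℤ) →+ (Fin v → ℤ) :=
      { toFun := fun a i => a.2 (J i), map_zero' := rfl, map_add' := fun _ _ => rfl }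
    let lam : ℤ × (Fin n → ℤ) →+ ℂ :=
      { toFun := fun a => (a.1 : ℂ) * Complex.log (τ g0) + ∑ i, (a.2 i : ℂ) * Complex.log (τ (g i))
        map_zero' := by simp
        map_add' := fun a b => by
          simp only [Prod.fst_add, Prod.snd_add, Pi.add_apply]
          push_cast
          simp only [add_mul, Finset.sum_add_distrib]
          ring }
    have hlam : ∀ a, Complex.exp (lam a) = τ (g0 ^ a.1 * ∏ i, g i ^ (a.2 i)) := by
      intro a
      change Complex.exp ((a.1 : ℂ) * Complex.log (τ g0) +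
        ∑ i, (a.2 i : ℂ) * Complex.log (τ (g i))) = _
      rw [Complex.exp_add, Complex.exp_int_mul, Complex.exp_log hg0, Complex.exp_sum, map_mul,
        map_zpow₀, map_prod]
      congr 1
      apply Finset.prod_congr rfl
      intro i _
      rw [Complex.exp_int_mul, Complex.exp_log (hg i), map_zpow₀]
    have hx0' : (fun j => τ (x j)) ≠ 0 := by
      intro h
      apply hx0
      funext j
      have := congrFun h j
      simp only [Pi.zero_apply] at this ⊢
      exact (map_eq_zero τ).1 this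
    have hfin2 : {a : GV | nrm (a : ℤ × (Fin n → ℤ)) ≤ 2 * ρ}.Finite :=
      (hLD.fin (2 * ρ)).preimage Subtype.val_injective.injOn
    obtain ⟨S', hS'⟩ : ∃ S' : Finset GV, S' = hfin2.toFinset := ⟨_, rfl⟩
    have hSm' : ∀ a : GV, a ∈ S' ↔ nrm (a : ℤ × (Fin n → ℤ)) ≤ 2 * ρ := by
      intro a
      rw [hS', Set.Finite.mem_toFinset]
      rfl
    obtain ⟨H0, w, hwv, hw, hE, hfull⟩ := hZV2 v hv1 GV (ζ.comp GV.subtype) (lam.comp GV.subtype)
      K Lc hK1 hLc1 (fun j => τ (x j)) hx0' S'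
      (by
        rw [hSm']
        change nrm 0 ≤ 2 * ρ
        rw [hn0]
        linarith)
      (by
        intro a ha
        rw [hSm'] at ha ⊢
        change nrm (-(a : ℤ × (Fin n → ℤ))) ≤ 2 * ρ
        rw [hneg]
        exact ha)
      (by
        intro l hl1 hl2
        have e1 := rcu_sum (G := GV) (nrm := fun a => nrm (a : ℤ × (Fin n → ℤ))) hn0
          (fun a b => hLD.add _ _) l fun a ha => (hSm' a).1 (hl2 a ha)
        have e3 : nrm ((l.sum : GV) : ℤ × (Fin n → ℤ)) ≤ U := by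
          refine e1.trans ?_
          rw [hl1]
          push_cast
          refine le_trans ?_ hρU
          have h0 : (v : ℝ) ≤ n := by exact_mod_cast hvn
          nlinarith
        have e4 := congrArg τ (hx _ e3 (l.sum : GV).2)
        rw [map_zero, map_sum] at e4
        rw [← e4]
        apply Finset.sum_congr rfl
        intro j _
        rw [map_mul, map_mul, map_prod, map_pow]
        change τ (x j) * ((∏ i, (((ζ (l.sum : GV)) i : ℤ) : ℂ) ^ (j.1.1 i : ℕ)) *
          Complex.exp (lam (l.sum : GV)) ^ (j.2 : ℕ)) = _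
        rw [hlam]
        congr 2
        apply Finset.prod_congr rfl
        intro i _
        rw [map_pow, map_intCast]
        rfl)
    let H : AddSubgroup (ℤ × (Fin n → ℤ)) := H0.map GV.subtype
    have hHGV : H ≤ GV := AddSubgroup.map_subtype_le _
    have hHm : ∀ a : GV, a ∈ H0 → (a : ℤ × (Fin n → ℤ)) ∈ H := fun a ha =>
      AddSubgroup.mem_map_of_mem GV.subtype ha
    have hEV := hENG (ℤ × (Fin n → ℤ)) S GV H hHGV ((v - w + 1).factorial * (K ^ (v - w) * Lc)) (by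
      intro E hE1 hE2
      have hc : (E.subtype fun a => a ∈ GV).card = E.card := by
        rw [Finset.card_subtype, Finset.filter_true_of_mem fun a ha => (hE1 a ha).1]
      rw [← hc]
      apply hE
      · intro a ha
        rw [Finset.mem_subtype] at ha
        obtain ⟨-, u, hu, u', hu', e⟩ := hE1 _ ha
        rw [hSm', e]
        exact hdiff u u' ((hSm u).1 hu) ((hSm u').1 hu')
      · intro a ha b hb hab
        rw [Finset.mem_subtype] at ha hb
        apply Subtype.ext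
        exact hE2 _ ha _ hb (hHm _ hab))
    have hEV' : (({z : (ℤ × (Fin n → ℤ)) × (ℤ × (Fin n → ℤ)) |
        z.1 ∈ S ∧ z.2 ∈ S ∧ z.1 - z.2 ∈ GV}.ncard : ℕ) : ℝ) ≤
        (((v - w + 1).factorial * (K ^ (v - w) * Lc) : ℕ) : ℝ) *
        (({z : (ℤ × (Fin n → ℤ)) × (ℤ × (Fin n → ℤ)) |
        z.1 ∈ S ∧ z.2 ∈ S ∧ z.1 - z.2 ∈ H}.ncard : ℕ) : ℝ) := by exact_mod_cast hEV
    have hHex : ∀ a ∈ H, ∃ b : GV, b ∈ H0 ∧ (b : ℤ × (Fin n → ℤ)) = a := by
      rintro a ⟨b, hb1, hb2⟩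
      exact ⟨b, hb1, hb2⟩
    rcases hwv.eq_or_lt with hwe | hwl
    · -- full dimension
      rw [hwe, Nat.sub_self, pow_zero, one_mul, zero_add, Nat.factorial_one, one_mul] at hEV'
      refine rcu_num2 hv1 hS1' hK1 hLc1 hcount hEV' ?_
      have hone : ∀ a ∈ H, g0 ^ a.1 * ∏ i, g i ^ (a.2 i) = 1 := by
        intro a ha
        obtain ⟨b, hb1, hb2⟩ := hHex a ha
        have h4 := hfull hwe b hb1
        change Complex.exp (lam (b : ℤ × (Fin n → ℤ))) = 1 at h4
        rw [hb2, hlam] at h4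
        exact τ.injective (by rw [h4, map_one])
      have hinj : ∀ a ∈ H, ζ a = 0 → a = 0 := by
        intro a ha h4
        have h5 : (rcu_cq n a) = 0 := by
          refine hJ2 _ ((hGV a).1 (hHGV ha)) fun i => ?_
          have h6 : a.2 (J i) = 0 := congrFun h4 i
          change ((a.2 (J i) : ℤ) : ℚ) = 0
          rw [h6, Int.cast_zero]
        have h6 : a.2 = 0 := by
          funext i
          have h7 : ((a.2 i : ℤ) : ℚ) = 0 := congrFun h5 i
          exact Int.cast_eq_zero.1 h7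
        have h7 := hone a ha
        rw [h6] at h7
        simp only [Pi.zero_apply, zpow_zero, Finset.prod_const_one, mul_one] at h7
        have h8 : a.1 = 0 := by
          by_contra h9
          exact hLD.tor _ h9 h7
        exact Prod.ext h8 h6
      have hkerfin : {a : ℤ × (Fin n → ℤ) | nrm a ≤ 2 * ρ ∧ a ∈ H}.Finite :=
        (hLD.fin (2 * ρ)).subset fun a ha => ha.1
      have hker : {a : ℤ × (Fin n → ℤ) | nrm a ≤ 2 * ρ ∧ a ∈ H}.ncard ≤ K ^ v := by
        rw [Set.ncard_eq_toFinset_card _ hkerfin]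
        refine rcu_mod hK1 H ζ hinj _ ?_ ?_
        · intro a ha
          rw [Set.Finite.mem_toFinset] at ha
          exact ha.2
        · intro a ha b hb h hh hab
          rw [Set.Finite.mem_toFinset] at ha hb
          by_contra hne
          have h4 := hLD.ker h hne (hone h hh)
          have h5 := hdiff2 a b ha.1 hb.1
          rw [hab, hLD.smul] at h5
          have h6 : |(((K : ℤ) : ℤ) : ℝ)| = (K : ℝ) := by simp
          rw [h6] at h5
          have h7 : (K : ℝ) * G ≤ K * nrm h :=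
            mul_le_mul_of_nonneg_left h4 (Nat.cast_nonneg K)
          linarith
      have h1 : {z : (ℤ × (Fin n → ℤ)) × (ℤ × (Fin n → ℤ)) |
          z.1 ∈ S ∧ z.2 ∈ S ∧ z.1 - z.2 ∈ H}.ncard ≤ ((S : Set (ℤ × (Fin n → ℤ))) ×ˢ
          {a : ℤ × (Fin n → ℤ) | nrm a ≤ 2 * ρ ∧ a ∈ H}).ncard := by
        refine Set.ncard_le_ncard_of_injOn (fun z => (z.1, z.1 - z.2)) ?_ ?_
          (S.finite_toSet.prod hkerfin)
        · rintro z ⟨h1, h2, h3⟩
          exact ⟨h1, hdiff z.1 z.2 ((hSm _).1 h1) ((hSm _).1 h2), h3⟩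
        · rintro z - z' - hzz
          have h1 := congrArg Prod.fst hzz
          have h2 := congrArg Prod.snd hzz
          simp only at h1 h2
          rw [h1] at h2
          exact Prod.ext h1 (sub_right_injective h2)
      rw [Set.ncard_prod, Set.ncard_coe_finset] at h1
      have h2 : {z : (ℤ × (Fin n → ℤ)) × (ℤ × (Fin n → ℤ)) |
          z.1 ∈ S ∧ z.2 ∈ S ∧ z.1 - z.2 ∈ H}.ncard ≤ S.card * K ^ v :=
        h1.trans (Nat.mul_le_mul_left _ hker)
      exact_mod_cast h2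
    · -- smaller dimension
      let f : (Fin n → ℚ) →ₗ[ℚ] (Fin v → ℚ) := LinearMap.funLeft ℚ ℚ J
      let V' : Submodule ℚ (Fin n → ℚ) := Submodule.span ℚ {u | ∃ a ∈ H, u = rcu_cq n a}
      have hV' : V' ≤ V := by
        rw [Submodule.span_le]
        rintro u ⟨a, ha, rfl⟩
        exact (hGV a).1 (hHGV ha)
      have hmap : V'.map f = Submodule.span ℚ {u : Fin v → ℚ | ∃ a ∈ H0,
          u = fun i => ((((ζ.comp GV.subtype) a) i : ℤ) : ℚ)} := by
        rw [Submodule.map_span]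
        congr 1
        ext u
        constructor
        · rintro ⟨_, ⟨a, ha, rfl⟩, rfl⟩
          obtain ⟨b, hb1, hb2⟩ := hHex a ha
          refine ⟨b, hb1, ?_⟩
          rw [← hb2]
          rfl
        · rintro ⟨b, hb, rfl⟩
          exact ⟨_, ⟨b, hHm b hb, rfl⟩, rfl⟩
      have hfr : Module.finrank ℚ V' = w := by
        rw [hw, ← hmap, ← LinearMap.range_domRestrict]
        symm
        apply LinearMap.finrank_range_of_inj
        rw [← LinearMap.ker_eq_bot, LinearMap.ker_eq_bot']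
        rintro ⟨y, hy⟩ hy0
        have f1 : y = 0 := hJ2 y (hV' hy) fun i => congrFun hy0 i
        subst f1
        rfl
      have hlt := ih w hwl V' hfr
      have hG1 : 1 ≤ 4 * ((n : ℝ) + 1) * K * Lc := by
        have e1 : (1 : ℝ) ≤ K := by exact_mod_cast hK1
        have e2 : (1 : ℝ) ≤ Lc := by exact_mod_cast hLc1
        have e3 : 1 ≤ 4 * ((n : ℝ) + 1) := by linarith
        exact one_le_mul_of_one_le_of_one_le (one_le_mul_of_one_le_of_one_le e3 e1) e2
      have h1 := rcu_num hwv hG1 (Nat.cast_nonneg _) hcount hEV'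
        (rcu_const (by omega) (by omega))
      refine absurd hlt (not_lt.2 (h1.trans ?_))
      have h2 : {z : (ℤ × (Fin n → ℤ)) × (ℤ × (Fin n → ℤ)) |
          z.1 ∈ S ∧ z.2 ∈ S ∧ z.1 - z.2 ∈ H} ⊆
          {z : (ℤ × (Fin n → ℤ)) × (ℤ × (Fin n → ℤ)) | nrm z.1 ≤ ρ ∧ nrm z.2 ≤ ρ ∧
            (fun i => (((z.1 - z.2).2 i : ℤ) : ℚ)) ∈ V'} := by
        rintro z ⟨h1, h2, h3⟩
        exact ⟨(hSm _).1 h1, (hSm _).1 h2, Submodule.subset_span ⟨_, h3, rfl⟩⟩
      have h3 : {z : (ℤ × (Fin n → ℤ)) × (ℤ × (Fin n → ℤ)) | nrm z.1 ≤ ρ ∧ nrm z.2 ≤ ρ ∧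
            (fun i => (((z.1 - z.2).2 i : ℤ) : ℚ)) ∈ V'}.Finite := by
        refine (hprodfin fun z => (fun i => (((z.1 - z.2).2 i : ℤ) : ℚ)) ∈ V').subset ?_
        rintro z ⟨h1, h2, h3⟩
        exact ⟨(hSm _).2 h1, (hSm _).2 h2, h3⟩
      exact_mod_cast Set.ncard_le_ncard h2 h3

end Pool.Helper99.SZ
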